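import Mathlib

set_option autoImplicit false

namespace Pool.Agent.Results.MP_c74d57_an.MedianCounterexample

open Real Polynomial

/-- Causal matrix-valued sequences of size `p × q`. -/
abbrev MSeq (p q : ℕ) : Type := ℕ → Matrix (Fin p) (Fin q) ℝ

/-- Membership in the space of absolutely summable matrix sequences. -/
def IsL1 {p q : ℕ} (X : MSeq p q) : Prop :=
  ∀ (i : Fin p) (j : Fin q), Summable (fun k : ℕ => |X k i j|)

/-- The convolution product of two causal matrix sequences. -/
def conv {p q r : ℕ} (X : MSeq p q) (Y : MSeq q r) : MSeq p r :=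
  fun k => ∑ t ∈ Finset.range (k + 1), X t * Y (k - t)

/-- The norm: the maximum over the rows of the sum of the absolute values of the row entries. -/
noncomputable def norm1 {p q : ℕ} (X : MSeq p q) : ℝ :=
  ⨆ i : Fin p, ∑ j : Fin q, ∑' k : ℕ, |X k i j|

/-- `R` is the transform of `X`: entrywise, the power series with coefficients `X k i j` equals the
quotient of the numerator and the denominator of the rational function `R i j`. -/
def IsTransform {p q : ℕ} (R : Matrix (Fin p) (Fin q) (RatFunc ℝ)) (X : MSeq p q) : Prop :=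
  ∀ (i : Fin p) (j : Fin q),
    PowerSeries.mk (fun k => X k i j) * (((R i j).denom : ℝ[X]) : PowerSeries ℝ)
      = (((R i j).num : ℝ[X]) : PowerSeries ℝ)

/-- A matrix sequence is rational when its transform is a matrix of rational functions. -/
def IsRational {p q : ℕ} (X : MSeq p q) : Prop :=
  ∃ R : Matrix (Fin p) (Fin q) (RatFunc ℝ), IsTransform R X

/-- The 1-block condition: the transform of `U` has full row rank and that of `V` has full
column rank over the field of rational functions. -/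
def OneBlock {p r s q : ℕ} (U : MSeq p r) (V : MSeq s q) : Prop :=
  ∃ (RU : Matrix (Fin p) (Fin r) (RatFunc ℝ)) (RV : Matrix (Fin s) (Fin q) (RatFunc ℝ)),
    IsTransform RU U ∧ IsTransform RV V ∧ RU.rank = p ∧ RV.rank = q

/-- `Q` is an optimal solution of the problem `inf ‖H - U Q V‖`. -/
def IsOptimal {p q r s : ℕ} (H : MSeq p q) (U : MSeq p r) (V : MSeq s q) (Q : MSeq r s) : Prop :=
  IsL1 Q ∧ ∀ Q' : MSeq r s, IsL1 Q' →
    norm1 (H - conv (conv U Q) V) ≤ norm1 (H - conv (conv U Q') V)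

/-! ### Rational power series -/

/-- A power series is a quotient of polynomials. -/
def RatPS (f : PowerSeries ℝ) : Prop :=
  ∃ P Q : ℝ[X], Q ≠ 0 ∧ f * (Q : PowerSeries ℝ) = (P : PowerSeries ℝ)

lemma RatPS.exists_ratFunc {f : PowerSeries ℝ} (h : RatPS f) :
    ∃ R : RatFunc ℝ, f * ((R.denom : ℝ[X]) : PowerSeries ℝ) = ((R.num : ℝ[X]) : PowerSeries ℝ) := by
  obtain ⟨P, Q, hQ, hf⟩ := h
  refine ⟨algebraMap ℝ[X] (RatFunc ℝ) P / algebraMap ℝ[X] (RatFunc ℝ) Q, ?_⟩
  set R : RatFunc ℝ := algebraMap ℝ[X] (RatFunc ℝ) P / algebraMap ℝ[X] (RatFunc ℝ) Q with hR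
  have h1 : R.num * Q = P * R.denom := (RatFunc.num_mul_eq_mul_denom_iff hQ).mpr hR
  have hQ' : (Q : PowerSeries ℝ) ≠ 0 := by
    intro h0; exact hQ (Polynomial.coe_eq_zero_iff.mp h0)
  apply mul_right_cancel₀ hQ'
  have h2 : ((R.num : ℝ[X]) : PowerSeries ℝ) * (Q : PowerSeries ℝ)
      = (P : PowerSeries ℝ) * ((R.denom : ℝ[X]) : PowerSeries ℝ) := by
    rw [← Polynomial.coe_mul, ← Polynomial.coe_mul, h1]
  rw [h2, ← hf]; ring

lemma RatPS.add {f g : PowerSeries ℝ} (hf : RatPS f) (hg : RatPS g) : RatPS (f + g) := by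
  obtain ⟨P, Q, hQ, h1⟩ := hf
  obtain ⟨P', Q', hQ', h2⟩ := hg
  refine ⟨P * Q' + P' * Q, Q * Q', mul_ne_zero hQ hQ', ?_⟩
  push_cast
  rw [← h1, ← h2]; ring

lemma RatPS.neg {f : PowerSeries ℝ} (hf : RatPS f) : RatPS (-f) := by
  obtain ⟨P, Q, hQ, h1⟩ := hf
  refine ⟨-P, Q, hQ, ?_⟩
  rw [Polynomial.coe_neg, ← h1]; ring

/-- Multiplication of the coefficients by the index preserves rationality. -/
lemma RatPS.indexMul {a : ℕ → ℝ} (h : RatPS (PowerSeries.mk a)) :
    RatPS (PowerSeries.mk (fun k => (k : ℝ) * a k)) := by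
  obtain ⟨P, Q, hQ, hf⟩ := h
  set f : PowerSeries ℝ := PowerSeries.mk a with hfdef
  have hX : PowerSeries.mk (fun k => (k : ℝ) * a k) = PowerSeries.X * PowerSeries.derivative ℝ f := by
    ext n
    cases n with
    | zero => simp
    | succ n =>
      rw [PowerSeries.coeff_succ_X_mul]
      rw [PowerSeries.coeff_mk, PowerSeries.coeff_derivative, hfdef, PowerSeries.coeff_mk]
      push_cast; ring
  have hd : PowerSeries.derivative ℝ f * (Q : PowerSeries ℝ) + f * ((derivative Q : ℝ[X]) : PowerSeries ℝ)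
      = ((derivative P : ℝ[X]) : PowerSeries ℝ) := by
    have := congrArg (PowerSeries.derivative ℝ) hf
    rw [Derivation.leibniz, PowerSeries.derivative_coe, PowerSeries.derivative_coe] at this
    simp only [smul_eq_mul] at this
    rw [← this]; ring
  refine ⟨X * (derivative P * Q - P * derivative Q), Q * Q, mul_ne_zero hQ hQ, ?_⟩
  rw [hX]
  push_cast
  rw [← hd, ← hf]; ring

/-! ### A rational power series whose coefficients have arbitrarily long zero runs
but are not eventually zero does not exist -/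

lemma RatPS.recurrence {a : ℕ → ℝ} (h : RatPS (PowerSeries.mk a)) :
    ∃ d K : ℕ, ∀ k, K ≤ k → (∀ i, i < d → a (k + i) = 0) → a (k + d) = 0 := by
  obtain ⟨P, Q, hQ, hf⟩ := h
  refine ⟨Q.natDegree - Q.natTrailingDegree, P.natDegree + 1, ?_⟩
  intro k hk hz
  have hle : Q.natTrailingDegree ≤ Q.natDegree := Polynomial.natTrailingDegree_le_natDegree Q
  set m := Q.natTrailingDegree with hm
  set D := Q.natDegree with hD
  have hcoef : PowerSeries.coeff (k + D) (PowerSeries.mk a * (Q : PowerSeries ℝ)) = 0 := by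
    rw [hf, Polynomial.coeff_coe]
    apply Polynomial.coeff_eq_zero_of_natDegree_lt
    omega
  rw [PowerSeries.coeff_mul] at hcoef
  have hsum : ∑ p ∈ Finset.HasAntidiagonal.antidiagonal (k + D), PowerSeries.coeff p.1 (PowerSeries.mk a)
      * PowerSeries.coeff p.2 (Q : PowerSeries ℝ)
      = a (k + (D - m)) * Q.coeff m := by
    rw [Finset.sum_eq_single (k + (D - m), m)]
    · simp
    · rintro ⟨i, j⟩ hij hne
      rw [Finset.HasAntidiagonal.mem_antidiagonal] at hij
      simp only at hij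
      simp only [PowerSeries.coeff_mk, Polynomial.coeff_coe]
      rcases lt_trichotomy j m with hj | hj | hj
      · rw [Polynomial.coeff_eq_zero_of_lt_natTrailingDegree hj, mul_zero]
      · exfalso; apply hne; ext <;> simp <;> omega
      · by_cases hjD : j ≤ D
        · have : a i = 0 := by
            have h1 := hz (D - j) (by omega)
            have h2 : k + (D - j) = i := by omega
            rwa [h2] at h1
          rw [this, zero_mul]
        · rw [Polynomial.coeff_eq_zero_of_natDegree_lt (by omega : Q.natDegree < j), mul_zero]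
    · intro h
      exfalso; apply h
      rw [Finset.HasAntidiagonal.mem_antidiagonal]
      simp only
      omega
  rw [hsum] at hcoef
  have hne : Q.coeff m ≠ 0 := by
    have := Polynomial.trailingCoeff_nonzero_iff_nonzero.mpr hQ
    exact this
  exact (mul_eq_zero.mp hcoef).resolve_right hne

lemma RatPS.eventually_zero {a : ℕ → ℝ} (h : RatPS (PowerSeries.mk a))
    (hruns : ∀ d K : ℕ, ∃ k, K ≤ k ∧ ∀ i, i < d → a (k + i) = 0) :
    ∃ K : ℕ, ∀ k, K ≤ k → a k = 0 := by
  obtain ⟨d, K, hrec⟩ := h.recurrence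
  obtain ⟨k0, hk0, hz⟩ := hruns d K
  refine ⟨k0, ?_⟩
  intro k hk
  obtain ⟨n, rfl⟩ := Nat.exists_eq_add_of_le hk
  clear hk
  induction n using Nat.strong_induction_on with
  | _ n ih =>
    by_cases hn : n < d
    · exact hz n hn
    · push Not at hn
      have h1 : k0 + n = (k0 + (n - d)) + d := by omega
      rw [h1]
      apply hrec (k0 + (n - d)) (by omega)
      intro i hi
      have h2 : k0 + (n - d) + i = k0 + (n - d + i) := by omega
      rw [h2]
      exact ih (n - d + i) (by omega)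

/-! ### The rotation angle -/

/-- The angle, an irrational multiple of `2π`. -/
noncomputable def theta : ℝ := 2 * π * goldenRatio

lemma one_sub_cos_sub_le (x y : ℝ) :
    1 - cos (x - y) ≤ 2 * (1 - cos x) + 2 * (1 - cos y) := by
  rw [Real.cos_sub]
  nlinarith [sq_nonneg (cos x + cos y - 2), sq_nonneg (sin x + sin y), sin_sq_add_cos_sq x,
    sin_sq_add_cos_sq y]

lemma cos_mul_theta_lt_one {i : ℕ} (hi : 0 < i) : cos (i * theta) < 1 := by
  rcases lt_or_eq_of_le (cos_le_one (i * theta)) with h | h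
  · exact h
  · exfalso
    rw [Real.cos_eq_one_iff] at h
    obtain ⟨n, hn⟩ := h
    have hpi : (π : ℝ) ≠ 0 := Real.pi_ne_zero
    have h1 : (n : ℝ) = i * goldenRatio := by
      have : (2 * π) * (n : ℝ) = (2 * π) * (i * goldenRatio) := by
        rw [theta] at hn; linarith
      exact mul_left_cancel₀ (by positivity) this
    have h2 : Irrational ((i : ℝ) * goldenRatio) :=
      goldenRatio_irrational.natCast_mul hi.ne'
    exact h2.ne_int n h1.symm

lemma cos_fib_theta (n : ℕ) : cos (Nat.fib n * theta) = cos (2 * π * goldenConj ^ n) := by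
  have h := fib_succ_sub_goldenRatio_mul_fib n
  have h1 : (Nat.fib n : ℝ) * theta = (Nat.fib (n + 1) : ℕ) * (2 * π) - 2 * π * goldenConj ^ n := by
    rw [← h, theta]; ring
  rw [h1, Real.cos_nat_mul_two_pi_sub]

lemma abs_goldenConj_lt_one : |goldenConj| < 1 := by
  rw [abs_lt]
  exact ⟨neg_one_lt_goldenConj, goldenConj_neg.trans one_pos⟩

lemma fib_mul_abs_goldenConj_pow_le (n : ℕ) : (Nat.fib n : ℝ) * |goldenConj| ^ n ≤ 1 := by
  rw [coe_fib_eq]
  have h5 : (2 : ℝ) ≤ √5 := by
    rw [show (2 : ℝ) = √4 by rw [show (4 : ℝ) = 2 ^ 2 by norm_num, Real.sqrt_sq (by norm_num)]]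
    exact Real.sqrt_le_sqrt (by norm_num)
  have h5' : 0 < √5 := by linarith
  rw [div_mul_eq_mul_div, div_le_one h5']
  have h1 : (goldenRatio ^ n - goldenConj ^ n) * |goldenConj| ^ n
      ≤ |goldenRatio * goldenConj| ^ n + (|goldenConj| ^ n) * (|goldenConj| ^ n) := by
    have e1 : goldenRatio ^ n * |goldenConj| ^ n = |goldenRatio * goldenConj| ^ n := by
      rw [abs_mul, mul_pow, abs_of_pos goldenRatio_pos]
    have e2 : -(goldenConj ^ n) ≤ |goldenConj| ^ n := by
      rw [← abs_pow]; exact neg_le_abs _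
    have e3 : 0 ≤ |goldenConj| ^ n := by positivity
    nlinarith
  have h2 : |goldenRatio * goldenConj| = 1 := by
    rw [goldenRatio_mul_goldenConj]; norm_num
  have h3 : |goldenConj| ^ n ≤ 1 := pow_le_one₀ (abs_nonneg _) abs_goldenConj_lt_one.le
  have h4 : (0 : ℝ) ≤ |goldenConj| ^ n := by positivity
  rw [h2, one_pow] at h1
  nlinarith

lemma fib_one_sub_cos_le (n : ℕ) :
    (Nat.fib n : ℝ) * (1 - cos (Nat.fib n * theta)) ≤ 2 * π ^ 2 * |goldenConj| ^ n := by
  rw [cos_fib_theta]
  have h1 : 1 - cos (2 * π * goldenConj ^ n) ≤ (2 * π * goldenConj ^ n) ^ 2 / 2 := by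
    have := Real.one_sub_sq_div_two_le_cos (x := 2 * π * goldenConj ^ n)
    linarith
  have h2 : (2 * π * goldenConj ^ n) ^ 2 / 2 = 2 * π ^ 2 * (|goldenConj| ^ n * |goldenConj| ^ n) := by
    have : goldenConj ^ n * goldenConj ^ n = |goldenConj| ^ n * |goldenConj| ^ n := by
      rw [← abs_pow, abs_mul_abs_self]
    nlinarith [this]
  have h3 := fib_mul_abs_goldenConj_pow_le n
  have h4 : (0 : ℝ) ≤ |goldenConj| ^ n := by positivity
  have h5 : (0 : ℝ) ≤ (Nat.fib n : ℝ) := by positivity
  calc (Nat.fib n : ℝ) * (1 - cos (2 * π * goldenConj ^ n))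
      ≤ (Nat.fib n : ℝ) * (2 * π ^ 2 * (|goldenConj| ^ n * |goldenConj| ^ n)) := by
        rw [← h2]; exact mul_le_mul_of_nonneg_left h1 h5
    _ = 2 * π ^ 2 * |goldenConj| ^ n * ((Nat.fib n : ℝ) * |goldenConj| ^ n) := by ring
    _ ≤ 2 * π ^ 2 * |goldenConj| ^ n * 1 := by
        apply mul_le_mul_of_nonneg_left h3; positivity
    _ = _ := by ring

/-! ### The three data sequences `0`, `b`, `c` and their median -/

/-- The sequence `2^(-k)`. -/
noncomputable def bseq (k : ℕ) : ℝ := (1 / 2) ^ k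

/-- The sequence `2^(-k) (1 - k (1 - cos (k θ)))`. -/
noncomputable def cseq (k : ℕ) : ℝ := (1 / 2) ^ k * (1 - k * (1 - cos (k * theta)))

/-- The termwise median of `0`, `b`, `c`, which is the positive part of `c`. -/
noncomputable def qseq (k : ℕ) : ℝ := max (cseq k) 0

lemma bseq_nonneg (k : ℕ) : 0 ≤ bseq k := by unfold bseq; positivity

lemma cseq_le_bseq (k : ℕ) : cseq k ≤ bseq k := by
  unfold cseq bseq
  have h1 : (0 : ℝ) < (1 / 2) ^ k := by positivity
  have h2 : 0 ≤ (k : ℝ) * (1 - cos (k * theta)) :=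
    mul_nonneg (Nat.cast_nonneg k) (by linarith [cos_le_one (k * theta)])
  nlinarith

lemma cseq_pos_iff (k : ℕ) : 0 < cseq k ↔ (k : ℝ) * (1 - cos (k * theta)) < 1 := by
  unfold cseq
  have h1 : (0 : ℝ) < (1 / 2) ^ k := by positivity
  constructor
  · intro h
    have := (mul_pos_iff_of_pos_left h1).mp h
    linarith
  · intro h
    exact mul_pos h1 (by linarith)

lemma summable_bseq : Summable bseq := by
  unfold bseq
  exact summable_geometric_of_lt_one (by norm_num) (by norm_num)

lemma abs_cseq_le (k : ℕ) : |cseq k| ≤ (1 / 2 : ℝ) ^ k + 2 * ((k : ℝ) ^ 1 * (1 / 2 : ℝ) ^ k) := by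
  unfold cseq
  rw [abs_mul, abs_of_pos (by positivity : (0 : ℝ) < (1 / 2) ^ k)]
  have h2 : 0 ≤ (k : ℝ) * (1 - cos (k * theta)) :=
    mul_nonneg (Nat.cast_nonneg k) (by linarith [cos_le_one (k * theta)])
  have h3 : (k : ℝ) * (1 - cos (k * theta)) ≤ k * 2 :=
    mul_le_mul_of_nonneg_left (by linarith [neg_one_le_cos (k * theta)]) (Nat.cast_nonneg k)
  have h1 : |1 - (k : ℝ) * (1 - cos (k * theta))| ≤ 1 + 2 * k := by
    rw [abs_le]; constructor <;> linarith
  have h4 : (0 : ℝ) < (1 / 2) ^ k := by positivity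
  nlinarith

lemma summable_abs_cseq : Summable (fun k => |cseq k|) := by
  refine Summable.of_nonneg_of_le (fun _ => abs_nonneg _) abs_cseq_le ?_
  apply Summable.add
  · exact summable_geometric_of_lt_one (by norm_num) (by norm_num)
  · apply Summable.mul_left
    exact summable_pow_mul_geometric_of_norm_lt_one 1 (by rw [Real.norm_eq_abs, abs_of_pos] <;> norm_num)

lemma summable_cseq : Summable cseq := summable_abs_cseq.of_abs

lemma abs_qseq_le (k : ℕ) : |qseq k| ≤ bseq k := by
  unfold qseq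
  rw [abs_of_nonneg (le_max_right _ _)]
  exact max_le (cseq_le_bseq k) (bseq_nonneg k)

lemma summable_abs_qseq : Summable (fun k => |qseq k|) :=
  Summable.of_nonneg_of_le (fun _ => abs_nonneg _) abs_qseq_le summable_bseq

/-- The pointwise inequality behind optimality and uniqueness of the median. -/
lemma median_ineq (b c x : ℝ) :
    (b - min c 0) + |x - max c 0| ≤ |0 - x| + |b - x| + |c - x| := by
  rcases le_total c 0 with h | h
  · rw [min_eq_left h, max_eq_right h]
    have h1 : |b - x| + |c - x| ≥ b - c := by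
      have := abs_sub_abs_le_abs_sub (b - x) (c - x)
      have h2 : b - c ≤ |(b - x) - (c - x)| := by
        have : (b - x) - (c - x) = b - c := by ring
        rw [this]; exact le_abs_self _
      have h3 := abs_sub (b - x) (c - x)
      linarith
    have h2 : |0 - x| = |x - 0| := abs_sub_comm _ _
    linarith
  · rw [min_eq_right h, max_eq_left h]
    have h1 : |0 - x| + |b - x| ≥ b := by
      have h3 := abs_sub (b - x) (0 - x)
      have h2 : b ≤ |(b - x) - (0 - x)| := by
        have : (b - x) - (0 - x) = b := by ring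
        rw [this]; exact le_abs_self _
      linarith
    have h2 : |c - x| = |x - c| := abs_sub_comm _ _
    linarith

lemma median_eq (b c : ℝ) (hb : 0 ≤ b) (hcb : c ≤ b) :
    |0 - max c 0| + |b - max c 0| + |c - max c 0| = b - min c 0 := by
  rcases le_total c 0 with h | h
  · rw [min_eq_left h, max_eq_right h, sub_zero, sub_zero, sub_zero, abs_zero, abs_of_nonneg hb,
      abs_of_nonpos h]; ring
  · rw [min_eq_right h, max_eq_left h, sub_self, abs_zero, zero_sub, abs_neg, abs_of_nonneg h,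
      abs_of_nonneg (by linarith : 0 ≤ b - c)]; ring

/-! ### The median sequence is not rational -/

lemma qseq_runs (d K : ℕ) : ∃ k, K ≤ k ∧ ∀ i, i < d → qseq (k + i) = 0 := by
  by_contra hcon
  push Not at hcon
  -- a uniform lower bound for the gaps
  obtain ⟨δ, hδ, hδ'⟩ : ∃ δ : ℝ, 0 < δ ∧ ∀ i : ℕ, 0 < i → i ≤ d → δ ≤ 1 - cos (i * theta) := by
    induction d with
    | zero => exact ⟨1, one_pos, fun i h1 h2 => by omega⟩
    | succ d _ =>
      have hne : (Finset.Icc 1 (d + 1)).Nonempty := ⟨1, by simp⟩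
      obtain ⟨i0, hi0, hmin⟩ := Finset.exists_min_image (Finset.Icc 1 (d + 1))
        (fun i : ℕ => 1 - cos ((i : ℝ) * theta)) hne
      rw [Finset.mem_Icc] at hi0
      refine ⟨1 - cos ((i0 : ℝ) * theta), by linarith [cos_mul_theta_lt_one (i := i0) (by omega)], ?_⟩
      intro i h1 h2
      exact hmin i (by rw [Finset.mem_Icc]; omega)
  obtain ⟨N, hN⟩ := exists_nat_gt (4 / δ)
  -- a large index where `c` is positive
  obtain ⟨k0, hk0, hpos⟩ : ∃ k0, max K (N + 1) ≤ k0 ∧ 0 < cseq k0 := by
    have hlim : Filter.Tendsto (fun n : ℕ => 2 * π ^ 2 * |goldenConj| ^ n) Filter.atTop (nhds 0) := by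
      have := (tendsto_pow_atTop_nhds_zero_of_lt_one (abs_nonneg goldenConj)
        abs_goldenConj_lt_one).const_mul (2 * π ^ 2)
      simpa using this
    have h1 := (hlim.eventually (gt_mem_nhds one_pos)).and
      (Filter.eventually_ge_atTop (max K (N + 1) + 5))
    obtain ⟨n, hn1, hn2⟩ := h1.exists
    refine ⟨Nat.fib n, ?_, ?_⟩
    · have h5 : n ≤ Nat.fib n := Nat.le_fib_self (by omega)
      omega
    · rw [cseq_pos_iff]
      exact lt_of_le_of_lt (fib_one_sub_cos_le n) hn1
  obtain ⟨i, hid, hne⟩ := hcon (k0 + 1) (by omega)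
  have hpos2 : 0 < cseq (k0 + 1 + i) := by
    by_contra h
    push Not at h
    exact hne (max_eq_right h)
  rw [cseq_pos_iff] at hpos hpos2
  have hk0pos : (0 : ℝ) < k0 := by
    have : 0 < k0 := by omega
    exact_mod_cast this
  have h1 : 1 - cos ((k0 : ℝ) * theta) < 1 / k0 := by
    rw [lt_div_iff₀ hk0pos]; linarith
  have h2 : 1 - cos (((k0 + 1 + i : ℕ) : ℝ) * theta) < 1 / k0 := by
    rw [lt_div_iff₀ hk0pos]
    have h3 : (k0 : ℝ) ≤ ((k0 + 1 + i : ℕ) : ℝ) := by exact_mod_cast (by omega)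
    have h4 : 0 ≤ 1 - cos (((k0 + 1 + i : ℕ) : ℝ) * theta) := by
      linarith [cos_le_one (((k0 + 1 + i : ℕ) : ℝ) * theta)]
    nlinarith
  have h3 := one_sub_cos_sub_le (((k0 + 1 + i : ℕ) : ℝ) * theta) ((k0 : ℝ) * theta)
  have h4 : ((k0 + 1 + i : ℕ) : ℝ) * theta - (k0 : ℝ) * theta = ((i + 1 : ℕ) : ℝ) * theta := by
    push_cast; ring
  rw [h4] at h3
  have h5 := hδ' (i + 1) (by omega) (by omega)
  have h6 : δ < 4 * (1 / k0) := by linarith
  have h7 : 4 / δ < k0 := by
    have : (N : ℝ) ≤ k0 := by exact_mod_cast (by omega : N ≤ k0)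
    linarith
  rw [div_lt_iff₀ hδ] at h7
  have h8 : δ * k0 < 4 := by
    have := mul_lt_mul_of_pos_right h6 hk0pos
    rwa [mul_assoc, one_div, inv_mul_cancel₀ hk0pos.ne', mul_one] at this
  linarith

lemma qseq_not_eventually_zero : ¬ ∃ K : ℕ, ∀ k, K ≤ k → qseq k = 0 := by
  rintro ⟨K, hK⟩
  have hlim : Filter.Tendsto (fun n : ℕ => 2 * π ^ 2 * |goldenConj| ^ n) Filter.atTop (nhds 0) := by
    have := (tendsto_pow_atTop_nhds_zero_of_lt_one (abs_nonneg goldenConj)
      abs_goldenConj_lt_one).const_mul (2 * π ^ 2)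
    simpa using this
  have h1 := (hlim.eventually (gt_mem_nhds one_pos)).and (Filter.eventually_ge_atTop (K + 5))
  obtain ⟨n, hn1, hn2⟩ := h1.exists
  have h5 : n ≤ Nat.fib n := Nat.le_fib_self (by omega)
  have hpos : 0 < cseq (Nat.fib n) := by
    rw [cseq_pos_iff]; exact lt_of_le_of_lt (fib_one_sub_cos_le n) hn1
  have h0 := hK (Nat.fib n) (by omega)
  unfold qseq at h0
  have := le_max_left (cseq (Nat.fib n)) 0
  linarith

lemma not_ratPS_qseq : ¬ RatPS (PowerSeries.mk qseq) := fun h =>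
  qseq_not_eventually_zero (h.eventually_zero qseq_runs)

/-! ### The data sequences are rational -/

lemma RatPS.of_rec (a : ℕ → ℝ) (p q : ℝ) (h : ∀ n, a (n + 2) = p * a (n + 1) + q * a n) :
    RatPS (PowerSeries.mk a) := by
  refine ⟨C (a 0) + C (a 1 - p * a 0) * X, 1 - C p * X - C q * X ^ 2, ?_, ?_⟩
  · intro h0
    have := congrArg (fun P : ℝ[X] => P.coeff 0) h0
    simp at this
  · have h1 : PowerSeries.mk a * ((1 - C p * X - C q * X ^ 2 : ℝ[X]) : PowerSeries ℝ)
        = PowerSeries.mk a - PowerSeries.C p * (PowerSeries.X * PowerSeries.mk a)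
          - PowerSeries.C q * (PowerSeries.X * (PowerSeries.X * PowerSeries.mk a)) := by
      push_cast
      ring
    rw [h1]
    ext n
    push_cast
    rcases n with _ | _ | n
    · simp
    · simp [PowerSeries.coeff_succ_X_mul, PowerSeries.coeff_succ_mul_X]
    · simp [PowerSeries.coeff_succ_X_mul, PowerSeries.coeff_succ_mul_X, h n]

lemma ratPS_zero : RatPS (PowerSeries.mk (fun _ => (0 : ℝ))) :=
  RatPS.of_rec _ 0 0 (by intro n; ring)

lemma ratPS_bseq : RatPS (PowerSeries.mk bseq) :=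
  RatPS.of_rec _ (1 / 2) 0 (by intro n; unfold bseq; ring)

lemma ratPS_cos : RatPS (PowerSeries.mk (fun k : ℕ => (1 / 2 : ℝ) ^ k * cos (k * theta))) := by
  apply RatPS.of_rec _ (cos theta) (-(1 / 4))
  intro n
  have h1 : ((n + 2 : ℕ) : ℝ) * theta = (((n + 1 : ℕ) : ℝ) * theta) + theta := by push_cast; ring
  have h2 : ((n : ℕ) : ℝ) * theta = (((n + 1 : ℕ) : ℝ) * theta) - theta := by push_cast; ring
  rw [h1, h2, cos_add, cos_sub]
  ring

lemma ratPS_cseq : RatPS (PowerSeries.mk cseq) := by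
  have h := (ratPS_bseq.add ratPS_bseq.indexMul.neg).add ratPS_cos.indexMul
  have h2 : PowerSeries.mk bseq + -PowerSeries.mk (fun k => (k : ℝ) * bseq k)
      + PowerSeries.mk (fun k : ℕ => (k : ℝ) * ((1 / 2 : ℝ) ^ k * cos (k * theta)))
      = PowerSeries.mk cseq := by
    ext n
    simp only [map_add, map_neg, PowerSeries.coeff_mk]
    unfold bseq cseq
    ring
  rwa [h2] at h

lemma isRational_of_entries {p q : ℕ} {X : MSeq p q}
    (h : ∀ i j, RatPS (PowerSeries.mk (fun k => X k i j))) : IsRational X :=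
  ⟨fun i j => (h i j).exists_ratFunc.choose, fun i j => (h i j).exists_ratFunc.choose_spec⟩

lemma IsRational.entry {p q : ℕ} {X : MSeq p q} (h : IsRational X) (i : Fin p) (j : Fin q) :
    RatPS (PowerSeries.mk (fun k => X k i j)) := by
  obtain ⟨R, hR⟩ := h
  exact ⟨(R i j).num, (R i j).denom, RatFunc.denom_ne_zero _, hR i j⟩

/-! ### The instance -/

/-- The data `H`, a `1 × 3` sequence. -/
noncomputable def Hdat : MSeq 1 3 := fun k _ j => ![0, bseq k, cseq k] j

/-- The data `U`, the `1 × 1` unit. -/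
def Udat : MSeq 1 1 := fun k _ _ => if k = 0 then 1 else 0

/-- The data `V`, the constant row `(1, 1, 1)`. -/
def Vdat : MSeq 1 3 := fun k _ _ => if k = 0 then 1 else 0

lemma closedLoop_apply (Q : MSeq 1 1) (k : ℕ) (i : Fin 1) (j : Fin 3) :
    (Hdat - conv (conv Udat Q) Vdat) k i j = ![0, bseq k, cseq k] j - Q k 0 0 := by
  have h1 : ∀ k, conv Udat Q k = Q k := by
    intro k
    unfold conv
    rw [Finset.sum_eq_single 0]
    · ext a b
      fin_cases a; fin_cases b
      simp [Udat, Matrix.mul_apply]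
    · intro t _ ht
      ext a b
      simp [Udat, Matrix.mul_apply, ht]
    · intro h; exact absurd (Finset.mem_range.mpr (Nat.succ_pos k)) h
  have h2 : conv (conv Udat Q) Vdat k = Q k * Vdat 0 := by
    unfold conv
    rw [Finset.sum_eq_single k]
    · rw [Nat.sub_self]
      congr 1
      exact h1 k
    · intro t ht hne
      have hlt : t < k := by
        have := Finset.mem_range.mp ht
        omega
      have h0 : Vdat (k - t) = 0 := by
        ext a b
        have : k - t ≠ 0 := by omega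
        simp [Vdat, this]
      rw [h0, Matrix.mul_zero]
    · intro h; exact absurd (Finset.mem_range.mpr (Nat.lt_succ_self k)) h
  rw [Pi.sub_apply, Matrix.sub_apply, h2]
  fin_cases i
  simp [Hdat, Vdat, Matrix.mul_apply]

lemma norm1_closedLoop (Q : MSeq 1 1) :
    norm1 (Hdat - conv (conv Udat Q) Vdat)
      = (∑' k, |0 - Q k 0 0|) + (∑' k, |bseq k - Q k 0 0|) + (∑' k, |cseq k - Q k 0 0|) := by
  unfold norm1
  rw [ciSup_unique]
  simp only [closedLoop_apply, Fin.sum_univ_three]
  rfl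

/-- The value of the optimum. -/
noncomputable def mu : ℝ := ∑' k, (bseq k - min (cseq k) 0)

lemma summable_mu : Summable (fun k => bseq k - min (cseq k) 0) := by
  apply Summable.sub summable_bseq
  refine Summable.of_norm_bounded (g := fun k => |cseq k|) summable_abs_cseq ?_
  intro k
  rw [Real.norm_eq_abs]
  rcases le_total (cseq k) 0 with h | h
  · rw [min_eq_left h]
  · rw [min_eq_right h, abs_zero]; exact abs_nonneg _

lemma summable_terms {Q : MSeq 1 1} (hQ : IsL1 Q) :
    Summable (fun k => |0 - Q k 0 0|) ∧ Summable (fun k => |bseq k - Q k 0 0|)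
      ∧ Summable (fun k => |cseq k - Q k 0 0|) ∧ Summable (fun k => |Q k 0 0 - qseq k|) := by
  have h1 : Summable (fun k => Q k 0 0) := (hQ 0 0).of_abs
  refine ⟨?_, ?_, ?_, ?_⟩
  · exact (summable_zero.sub h1).abs
  · exact (summable_bseq.sub h1).abs
  · exact (summable_cseq.sub h1).abs
  · exact (h1.sub summable_abs_qseq.of_abs).abs

lemma lower_bound {Q : MSeq 1 1} (hQ : IsL1 Q) :
    mu + ∑' k, |Q k 0 0 - qseq k| ≤ norm1 (Hdat - conv (conv Udat Q) Vdat) := by
  obtain ⟨h1, h2, h3, h4⟩ := summable_terms hQ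
  rw [norm1_closedLoop, mu, ← summable_mu.tsum_add h4, ← h1.tsum_add h2, ← (h1.add h2).tsum_add h3]
  exact (summable_mu.add h4).tsum_le_tsum (fun k => median_ineq (bseq k) (cseq k) (Q k 0 0))
    ((h1.add h2).add h3)

/-- The optimal solution. -/
noncomputable def Qopt : MSeq 1 1 := fun k _ _ => qseq k

lemma isL1_Qopt : IsL1 Qopt := fun _ _ => summable_abs_qseq

lemma norm1_Qopt : norm1 (Hdat - conv (conv Udat Qopt) Vdat) = mu := by
  obtain ⟨h1, h2, h3, -⟩ := summable_terms isL1_Qopt
  rw [norm1_closedLoop, mu, ← h1.tsum_add h2, ← (h1.add h2).tsum_add h3]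
  apply tsum_congr
  intro k
  exact median_eq (bseq k) (cseq k) (bseq_nonneg k) (cseq_le_bseq k)

lemma isOptimal_Qopt : IsOptimal Hdat Udat Vdat Qopt := by
  refine ⟨isL1_Qopt, fun Q' hQ' => ?_⟩
  rw [norm1_Qopt]
  have h := lower_bound hQ'
  have h0 : 0 ≤ ∑' k, |Q' k 0 0 - qseq k| := tsum_nonneg (fun _ => abs_nonneg _)
  linarith

lemma eq_of_isOptimal {Q : MSeq 1 1} (hQ : IsOptimal Hdat Udat Vdat Q) (k : ℕ) :
    Q k 0 0 = qseq k := by
  have h1 := hQ.2 Qopt isL1_Qopt
  rw [norm1_Qopt] at h1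
  have h2 := lower_bound hQ.1
  have h3 : ∑' k, |Q k 0 0 - qseq k| ≤ 0 := by linarith
  have h4 := (summable_terms hQ.1).2.2.2
  have h5 : |Q k 0 0 - qseq k| ≤ 0 :=
    (h4.le_tsum k (fun _ _ => abs_nonneg _)).trans h3
  have h6 := abs_nonpos_iff.mp h5
  linarith

/-- Negated form of the question: there are rational `H`, `U`, `V` forming a multi-block instance
for which the minimum is attained while no optimal solution is rational. -/
theorem result :
    ∃ (nz nw nu ny : ℕ) (_ : 1 ≤ nz) (_ : 1 ≤ nw) (_ : 1 ≤ nu) (_ : 1 ≤ ny)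
      (H : MSeq nz nw) (U : MSeq nz nu) (V : MSeq ny nw),
      IsL1 H ∧ IsL1 U ∧ IsL1 V ∧ IsRational H ∧ IsRational U ∧ IsRational V ∧
      ¬ OneBlock U V ∧ (∃ Q : MSeq nu ny, IsOptimal H U V Q) ∧
      ∀ Q : MSeq nu ny, IsOptimal H U V Q → ¬ IsRational Q := by
  have hdelta : RatPS (PowerSeries.mk (fun k : ℕ => if k = 0 then (1 : ℝ) else 0)) :=
    RatPS.of_rec _ 0 0 (by intro n; simp)
  have hsum : Summable (fun k : ℕ => |if k = 0 then (1 : ℝ) else 0|) := by
    apply summable_of_ne_finset_zero (s := {0})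
    intro k hk
    rw [Finset.mem_singleton] at hk
    simp [hk]
  refine ⟨1, 3, 1, 1, le_refl 1, by norm_num, le_refl 1, le_refl 1, Hdat, Udat, Vdat, ?_, ?_, ?_,
    ?_, ?_, ?_, ?_, ⟨Qopt, isOptimal_Qopt⟩, ?_⟩
  · intro i j
    fin_cases j
    · simp [Hdat]
    · simpa [Hdat] using summable_bseq.abs
    · simpa [Hdat] using summable_abs_cseq
  · intro i j; exact hsum
  · intro i j; exact hsum
  · apply isRational_of_entries
    intro i j
    fin_cases j
    · exact ratPS_zero
    · exact ratPS_bseq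
    · exact ratPS_cseq
  · exact isRational_of_entries (fun i j => hdelta)
  · exact isRational_of_entries (fun i j => hdelta)
  · rintro ⟨RU, RV, -, -, -, hV⟩
    have h := RV.rank_le_height
    omega
  · intro Q hQ hrat
    have h := hrat.entry 0 0
    have h2 : (fun k => Q k 0 0) = qseq := funext (eq_of_isOptimal hQ)
    rw [h2] at h
    exact not_ratPS_qseq h

end Pool.Agent.Results.MP_c74d57_an.MedianCounterexample
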